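import Mathlib

/-! # MP_79dd7e_co: a convex (2n+1)-gon with infinitely many quadrisections, for all n ≥ 4

The square `[-1,1]²` has infinitely many quadrisections through its centre. Cut off three of its corners by one
edge each (legs `c`), and the corner `(1,1)` by a convex chain with `m` edges between `(1/2,1)` and `(1,1/2)`, so that the
four areas cut off are equal. For small rotations the quadrants contain one cut off corner each. The number of vertices is
`m + 7`. -/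

set_option autoImplicit false

namespace Pool.Agent.Q280.QG

open MeasureTheory Set Real

abbrev E : Type := ℝ × ℝ

/-- `R` is a convex `m`-gon: the convex hull of `m` points, none of which is in the convex hull of the others, with
nonempty interior -/
def IsConvexGon (m : ℕ) (R : Set E) : Prop :=
  ∃ V : Finset E, V.card = m ∧ (∀ v ∈ V, v ∉ convexHull ℝ ((V : Set E) \ {v})) ∧
    R = convexHull ℝ (V : Set E) ∧ (interior R).Nonempty

/-- coordinates of `x` with respect to the frame `(cos θ, sin θ)`, `(-sin θ, cos θ)` -/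
noncomputable def cu (θ : ℝ) (x : E) : ℝ := x.1 * cos θ + x.2 * sin θ
noncomputable def cv (θ : ℝ) (x : E) : ℝ := -(x.1 * sin θ) + x.2 * cos θ

/-- the closed quadrants with apex `p` -/
def quad (p : E) (θ ε δ : ℝ) : Set E := {x | 0 ≤ ε * cu θ (x - p) ∧ 0 ≤ δ * cv θ (x - p)}

/-- the two perpendicular lines through `p` -/
def lineU (p : E) (θ : ℝ) : Set E := {x | cv θ (x - p) = 0}
def lineV (p : E) (θ : ℝ) : Set E := {x | cu θ (x - p) = 0}

/-- the quadrisections of `R` (unordered pairs of perpendicular lines which meet in the interior) -/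
def quadrisections (R : Set E) : Set (Sym2 (Set E)) :=
  {s | ∃ p ∈ interior R, ∃ θ : ℝ, s = s(lineU p θ, lineV p θ) ∧
    ∀ ε ∈ ({1, -1} : Set ℝ), ∀ δ ∈ ({1, -1} : Set ℝ), volume (R ∩ quad p θ ε δ) = volume R / 4}

/-- the square -/
def Sq : Set E := {x | |x.1| ≤ 1 ∧ |x.2| ≤ 1}

/-- the chain at the corner `(1,1)` -/
noncomputable def ch (m k : ℕ) : E := (1 - (1 - (k : ℝ) / m) ^ 2 / 2, 1 - ((k : ℝ) / m) ^ 2 / 2)

/-- its convex hull -/
def H (m : ℕ) : Set E := convexHull ℝ (ch m '' {k | k ≤ m})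

open Classical in
/-- the vertices -/
noncomputable def V (m : ℕ) (c : ℝ) : Finset E := (Finset.range (m + 1)).image (ch m) ∪
  {(-(1 - c), 1), (-1, 1 - c), (-1, -(1 - c)), (-(1 - c), -1), (1 - c, -1), (1, -(1 - c))}

/-- the polygon -/
def R (m : ℕ) (c : ℝ) : Set E := convexHull ℝ (V m c : Set E)

/-- the part cut off at the corner `(ε, δ)` by one edge -/
def Tri (ε δ c : ℝ) : Set E := {x | ε * x.1 ≤ 1 ∧ δ * x.2 ≤ 1 ∧ 2 - c < ε * x.1 + δ * x.2}

/-- the part cut off at the corner `(1,1)` -/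
def NE (m : ℕ) : Set E := Tri 1 1 (1 / 2) \ H m

/-- number of vertices. `ch m` is injective; the six points are different from each other and from the `ch m k` (these
have both coordinates at least 1/2, and coordinate sum ≥ 3/2) -/
def TaskCard : Prop := ∀ (m : ℕ) (c : ℝ), 1 ≤ m → 0 < c → c ≤ 1 / 2 → (V m c).card = m + 7

/-- a point at which a linear function is strictly minimal is not in the hull of the others -/
def TaskStrict : Prop := ∀ (W : Set E) (v : E) (a b : ℝ),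
  (∀ w ∈ W, w ≠ v → a * v.1 + b * v.2 < a * w.1 + b * w.2) → v ∉ convexHull ℝ (W \ {v})

/-- convex position. For `ch m k`, `0 < k < m`, `s = k/m`: the linear function `-s x - (1-s) y` is strictly minimal at
`ch m k`: its value at `ch m j`, `t = j/m`, is `-1 + ((t-s)² + s - s²)/2`. For `k = 0`: `-x/(2m) - y`; for `k = m`:
`-x - y/(2m)`. The six others: `(-(1-c),1)`: for example `x/4·(something small) - y` (strictly less at this point: use
`-y + η x` with small η, e.g. `η = c/4`), and so on by symmetry. Uses TaskStrict. -/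
def TaskPos : Prop := TaskStrict → ∀ (m : ℕ) (c : ℝ), 1 ≤ m → 0 < c → c ≤ 1 / 2 →
  ∀ v ∈ V m c, v ∉ convexHull ℝ ((V m c : Set E) \ {v})

/-- outer bounds (convexHull_min: half planes are convex and contain the vertices) -/
def TaskOuter : Prop := ∀ (m : ℕ) (c : ℝ), 1 ≤ m → 0 < c → c ≤ 1 / 2 → ∀ x ∈ R m c,
  |x.1| ≤ 1 ∧ |x.2| ≤ 1 ∧ x.2 - x.1 ≤ 2 - c ∧ -x.1 - x.2 ≤ 2 - c ∧ x.1 - x.2 ≤ 2 - c

/-- inner bounds: the octagon with the vertices `(1/2,1), (1,1/2)` and the six points is in `R`. (Every point of it is on a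
horizontal segment between two points of the boundary; these are on segments between vertices.) -/
def TaskInner : Prop := ∀ (m : ℕ) (c : ℝ), 1 ≤ m → 0 < c → c ≤ 1 / 2 → ∀ x : E,
  |x.1| ≤ 1 → |x.2| ≤ 1 → x.1 + x.2 ≤ 3 / 2 → x.2 - x.1 ≤ 2 - c → -x.1 - x.2 ≤ 2 - c →
  x.1 - x.2 ≤ 2 - c → x ∈ R m c

/-- the part of `R` beyond the line `x + y = 3/2` is `H m`: a point of `R` is `λ a + (1-λ) b` with `a ∈ H m`
(`x + y ≥ 3/2` there) and `b` in the hull of the six points (`x + y ≤ 3/2` there); the segment from `a` to `b` meets the line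
in a point of the square, so in the segment between `ch m 0 = (1/2,1)` and `ch m m = (1,1/2)` -/
def TaskH : Prop := TaskOuter → ∀ (m : ℕ) (c : ℝ), 1 ≤ m → 0 < c → c ≤ 1 / 2 → ∀ x : E,
  3 / 2 ≤ x.1 + x.2 → (x ∈ R m c ↔ x ∈ H m)

/-- area of a right triangle -/
def TaskTri : Prop := ∀ ε δ c : ℝ, (ε = 1 ∨ ε = -1) → (δ = 1 ∨ δ = -1) → 0 < c → c ≤ 1 →
  volume (Tri ε δ c) = ENNReal.ofReal (c ^ 2 / 2)

/-- choice of `c`: `Tri 1 1 (1/4) ⊆ NE m ⊆ Tri 1 1 (1/2)` (on `H m` one has `x + y ≤ 7/4`), `c = sqrt (2 area)` -/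
def TaskC : Prop := TaskTri → ∀ m : ℕ, 1 ≤ m → ∃ c : ℝ, 0 < c ∧ c ≤ 1 / 2 ∧
  volume (NE m) = ENNReal.ofReal (c ^ 2 / 2)

/-- the four parts of the square have the same area (rotation by 90 degrees preserves the volume: swap and negation of a
coordinate) -/
def TaskRot : Prop := ∀ θ : ℝ, ∃ w : ENNReal, w ≠ ⊤ ∧ ∀ ε ∈ ({1, -1} : Set ℝ), ∀ δ ∈ ({1, -1} : Set ℝ),
  volume (Sq ∩ quad 0 θ ε δ) = w

/-- the part of `R` in a quadrant, for three of the quadrants -/
def TaskQuad3 : Prop := TaskOuter → TaskInner → ∀ (m : ℕ) (c : ℝ), 1 ≤ m → 0 < c → c ≤ 1 / 2 →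
  ∀ θ : ℝ, 0 < θ → θ < 1 / 4 → ∀ ε ∈ ({1, -1} : Set ℝ), ∀ δ ∈ ({1, -1} : Set ℝ), ¬ (ε = 1 ∧ δ = 1) →
  R m c ∩ quad 0 θ ε δ = (Sq ∩ quad 0 θ ε δ) \ Tri ε δ c ∧ Tri ε δ c ⊆ Sq ∩ quad 0 θ ε δ

/-- the same for the quadrant with the corner `(1,1)` -/
def TaskQuad1 : Prop := TaskOuter → TaskInner → TaskH → ∀ (m : ℕ) (c : ℝ), 1 ≤ m → 0 < c → c ≤ 1 / 2 →
  ∀ θ : ℝ, 0 < θ → θ < 1 / 4 →
  R m c ∩ quad 0 θ 1 1 = (Sq ∩ quad 0 θ 1 1) \ NE m ∧ NE m ⊆ Sq ∩ quad 0 θ 1 1

/-- lines are null sets, so the areas of the four parts add up -/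
def TaskSum : Prop := ∀ (S : Set E) (θ : ℝ), MeasurableSet S →
  volume S = volume (S ∩ quad 0 θ 1 1) + volume (S ∩ quad 0 θ 1 (-1)) + volume (S ∩ quad 0 θ (-1) 1) +
    volume (S ∩ quad 0 θ (-1) (-1))

/-- measurability (closed set minus closed set; `H m` is the hull of a finite set, so compact) -/
def TaskMeas : Prop := ∀ (m : ℕ) (c : ℝ), MeasurableSet (R m c) ∧ MeasurableSet (NE m) ∧
  ∀ ε δ : ℝ, MeasurableSet (Tri ε δ c)

/-- infinitely many pairs of lines -/
def TaskInf : Prop := ((fun θ : ℝ => s(lineU 0 θ, lineV 0 θ)) '' {θ | 0 < θ ∧ θ < 1 / 4}).Infinite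

/-- `0` is in the interior -/
def TaskInt : Prop := TaskInner → ∀ (m : ℕ) (c : ℝ), 1 ≤ m → 0 < c → c ≤ 1 / 2 → (0 : E) ∈ interior (R m c)

end Pool.Agent.Q280.QG
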