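import Mathlib
import Pool.Agent.Q280.QG.Stmts

set_option autoImplicit false

namespace Pool.Agent.Q280.QG.Main

open MeasureTheory Set Real Pool.Agent.Q280.QG

theorem main (hCard : TaskCard) (hStrict : TaskStrict) (hPos : TaskPos) (hOuter : TaskOuter)
    (hInner : TaskInner) (hH : TaskH) (hTri : TaskTri) (hC : TaskC) (hRot : TaskRot)
    (hQ3 : TaskQuad3) (hQ1 : TaskQuad1) (hSum : TaskSum) (hMeas : TaskMeas) (hInf : TaskInf)
    (hInt : TaskInt) (n : ℕ) (hn : 4 ≤ n) :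
    ∃ R : Set E, IsConvexGon (2 * n + 1) R ∧ (quadrisections R).Infinite := by
  obtain ⟨m, hm⟩ : ∃ m, 2 * n + 1 = m + 7 := ⟨2 * n - 6, by omega⟩
  have hm1 : 1 ≤ m := by omega
  obtain ⟨c, hc0, hc1, hc⟩ := hC hTri m hm1
  have h0 : (0 : E) ∈ interior (R m c) := hInt hInner m c hm1 hc0 hc1
  refine ⟨R m c, ⟨V m c, ?_, hPos hStrict m c hm1 hc0 hc1, rfl, ⟨0, h0⟩⟩, ?_⟩
  · rw [hCard m c hm1 hc0 hc1, hm]
  refine hInf.mono ?_
  rintro _ ⟨θ, ⟨hθ0, hθ1⟩, rfl⟩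
  refine ⟨0, h0, θ, rfl, ?_⟩
  obtain ⟨w, hw, hw'⟩ := hRot θ
  obtain ⟨hmR, hmN, hmT⟩ := hMeas m c
  have key : ∀ ε ∈ ({1, -1} : Set ℝ), ∀ δ ∈ ({1, -1} : Set ℝ),
      volume (R m c ∩ quad 0 θ ε δ) = w - ENNReal.ofReal (c ^ 2 / 2) := by
    intro ε hε δ hδ
    by_cases h11 : ε = 1 ∧ δ = 1
    · obtain ⟨rfl, rfl⟩ := h11
      obtain ⟨h1, h2⟩ := hQ1 hOuter hInner (hH) m c hm1 hc0 hc1 θ hθ0 hθ1
      rw [h1, measure_diff h2 hmN.nullMeasurableSet (by rw [hc]; exact ENNReal.ofReal_ne_top),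
        hw' 1 hε 1 hδ, hc]
    · obtain ⟨h1, h2⟩ := hQ3 hOuter hInner m c hm1 hc0 hc1 θ hθ0 hθ1 ε hε δ hδ h11
      have ht := hTri ε δ c (by simpa using hε) (by simpa using hδ) hc0 (by linarith)
      rw [h1, measure_diff h2 (hmT ε δ).nullMeasurableSet (by rw [ht]; exact ENNReal.ofReal_ne_top),
        hw' ε hε δ hδ, ht]
  have hvol : volume (R m c) = 4 * (w - ENNReal.ofReal (c ^ 2 / 2)) := by
    rw [hSum (R m c) θ hmR, key 1 (by simp) 1 (by simp), key 1 (by simp) (-1) (by simp),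
      key (-1) (by simp) 1 (by simp), key (-1) (by simp) (-1) (by simp)]
    ring
  intro ε hε δ hδ
  rw [key ε hε δ hδ, hvol]
  rw [ENNReal.eq_div_iff (by norm_num) (by norm_num)]

end Pool.Agent.Q280.QG.Main
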