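import Pool.Agent.Q280.QG.Stmts

set_option autoImplicit false

namespace Pool.Agent.Q280.QG.TaskC

open MeasureTheory Set Real
open Pool.Agent.Q280.QG

theorem sum_le {m : ℕ} (hm : 1 ≤ m) {x : E} (hx : x ∈ H m) : x.1 + x.2 ≤ 7 / 4 := by
  have hconv : Convex ℝ {x : E | x.1 + x.2 ≤ 7 / 4} := by
    intro a ha b hb s t hs ht hst
    simp only [mem_setOf_eq, Prod.fst_add, Prod.snd_add, Prod.smul_fst, Prod.smul_snd,
      smul_eq_mul] at *
    nlinarith
  have hsub : ch m '' {k | k ≤ m} ⊆ {x : E | x.1 + x.2 ≤ 7 / 4} := by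
    rintro _ ⟨k, _, rfl⟩
    simp only [mem_setOf_eq, ch]
    nlinarith [sq_nonneg (2 * ((k : ℝ) / m) - 1)]
  exact convexHull_min hsub hconv hx

theorem main : Pool.Agent.Q280.QG.TaskC := by
  intro hT m hm
  have h1 : Tri 1 1 (1 / 4) ⊆ NE m := by
    intro x hx
    refine ⟨⟨hx.1, hx.2.1, ?_⟩, fun h => ?_⟩
    · have := hx.2.2
      simp only [one_mul] at *
      linarith
    · have h2 := sum_le hm h
      have := hx.2.2
      simp only [one_mul] at this
      linarith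
  have h2 : NE m ⊆ Tri 1 1 (1 / 2) := fun x hx => hx.1
  have v1 := hT 1 1 (1 / 4) (Or.inl rfl) (Or.inl rfl) (by norm_num) (by norm_num)
  have v2 := hT 1 1 (1 / 2) (Or.inl rfl) (Or.inl rfl) (by norm_num) (by norm_num)
  have h3 := measure_mono (μ := volume) h1
  have h4 := measure_mono (μ := volume) h2
  rw [v1] at h3
  rw [v2] at h4
  have hfin : volume (NE m) ≠ ⊤ := ne_top_of_le_ne_top ENNReal.ofReal_ne_top h4
  set a : ℝ := (volume (NE m)).toReal with ha
  have hva : volume (NE m) = ENNReal.ofReal a := (ENNReal.ofReal_toReal hfin).symm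
  have h5 : (1 / 4 : ℝ) ^ 2 / 2 ≤ a := (ENNReal.ofReal_le_iff_le_toReal hfin).1 h3
  have h6 : a ≤ (1 / 2 : ℝ) ^ 2 / 2 := ENNReal.toReal_le_of_le_ofReal (by norm_num) h4
  refine ⟨√(2 * a), ?_, ?_, ?_⟩
  · apply Real.sqrt_pos.2
    nlinarith
  · rw [show (1 / 2 : ℝ) = √((1 / 2) ^ 2) by rw [Real.sqrt_sq (by norm_num)]]
    apply Real.sqrt_le_sqrt
    linarith
  · rw [hva, Real.sq_sqrt (by nlinarith)]
    congr 1
    ring

end Pool.Agent.Q280.QG.TaskC
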