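import Pool.Agent.Q280.QG.Stmts

set_option autoImplicit false

namespace Pool.Agent.Q280.QG.TaskCard

open Set Real

theorem ch_inj (m : ℕ) (hm : 1 ≤ m) : Function.Injective (ch m) := by
  intro j k h
  have h2 : 1 - ((j : ℝ) / m) ^ 2 / 2 = 1 - ((k : ℝ) / m) ^ 2 / 2 := congrArg Prod.snd h
  have hm0 : (0 : ℝ) < m := by exact_mod_cast hm
  have h3 : ((j : ℝ) / m) ^ 2 = ((k : ℝ) / m) ^ 2 := by linarith
  have h4 : (j : ℝ) / m = (k : ℝ) / m :=
    (sq_eq_sq₀ (by positivity) (by positivity)).1 h3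
  have h5 : (j : ℝ) = k := by
    rwa [div_left_inj' hm0.ne'] at h4
  exact_mod_cast h5

theorem ch_pos (m k : ℕ) (hm : 1 ≤ m) (hk : k ≤ m) : 0 < (ch m k).1 ∧ 0 < (ch m k).2 := by
  have hm0 : (0 : ℝ) < m := by exact_mod_cast hm
  have h1 : (k : ℝ) / m ≤ 1 := by
    rw [div_le_one hm0]
    exact_mod_cast hk
  have h0 : 0 ≤ (k : ℝ) / m := by positivity
  constructor
  · change 0 < 1 - (1 - (k : ℝ) / m) ^ 2 / 2
    nlinarith
  · change 0 < 1 - ((k : ℝ) / m) ^ 2 / 2
    nlinarith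

theorem main : Pool.Agent.Q280.QG.TaskCard := by
  classical
  intro m c hm hc0 hc1
  unfold V
  rw [Finset.card_union_of_disjoint]
  · rw [Finset.card_image_of_injective _ (ch_inj m hm), Finset.card_range]
    rw [Finset.card_insert_of_notMem, Finset.card_insert_of_notMem, Finset.card_insert_of_notMem,
      Finset.card_insert_of_notMem, Finset.card_insert_of_notMem, Finset.card_singleton]
    · simp only [Finset.mem_singleton, Prod.mk.injEq]
      rintro ⟨h1, h2⟩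
      linarith
    · simp only [Finset.mem_insert, Finset.mem_singleton, Prod.mk.injEq]
      rintro (⟨h1, h2⟩ | ⟨h1, h2⟩) <;> linarith
    · simp only [Finset.mem_insert, Finset.mem_singleton, Prod.mk.injEq]
      rintro (⟨h1, h2⟩ | ⟨h1, h2⟩ | ⟨h1, h2⟩) <;> linarith
    · simp only [Finset.mem_insert, Finset.mem_singleton, Prod.mk.injEq]
      rintro (⟨h1, h2⟩ | ⟨h1, h2⟩ | ⟨h1, h2⟩ | ⟨h1, h2⟩) <;> linarith
    · simp only [Finset.mem_insert, Finset.mem_singleton, Prod.mk.injEq]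
      rintro (⟨h1, h2⟩ | ⟨h1, h2⟩ | ⟨h1, h2⟩ | ⟨h1, h2⟩ | ⟨h1, h2⟩) <;> linarith
  · rw [Finset.disjoint_left]
    intro x hx hx'
    obtain ⟨k, hk, rfl⟩ := Finset.mem_image.1 hx
    have hk' : k ≤ m := Nat.lt_succ_iff.1 (Finset.mem_range.1 hk)
    obtain ⟨h1, h2⟩ := ch_pos m k hm hk'
    simp only [Finset.mem_insert, Finset.mem_singleton] at hx'
    rcases hx' with h | h | h | h | h | h <;> rw [h] at h1 h2 <;> simp only at h1 h2 <;> linarith

end Pool.Agent.Q280.QG.TaskCard
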