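import Mathlib
import Pool.Agent.Q280.QG.Stmts

set_option autoImplicit false

namespace Pool.Agent.Q280.QG.TaskH

open MeasureTheory Set Real Pool.Agent.Q280.QG

lemma sum_ch (m k : ℕ) (hm : 1 ≤ m) (hk : k ≤ m) : 3 / 2 ≤ (ch m k).1 + (ch m k).2 := by
  have hm' : (0 : ℝ) < m := by exact_mod_cast hm
  have h0 : 0 ≤ (k : ℝ) / m := by positivity
  have h1 : (k : ℝ) / m ≤ 1 := by
    rw [div_le_one hm']; exact_mod_cast hk
  simp only [ch]
  nlinarith [mul_nonneg h0 (sub_nonneg.2 h1)]

theorem main : Pool.Agent.Q280.QG.TaskH := by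
  intro hOuter m c hm hc0 hc1 x hx
  have hm' : (0 : ℝ) < m := by exact_mod_cast hm
  let B : Set E := {(-(1 - c), 1), (-1, 1 - c), (-1, -(1 - c)), (-(1 - c), -1), (1 - c, -1),
    (1, -(1 - c))}
  have hV : (V m c : Set E) = (ch m '' {k | k ≤ m}) ∪ B := by
    ext y
    simp only [V, Finset.coe_union, Finset.coe_image, Finset.coe_range, B]
    simp [Nat.lt_succ_iff]
  have hHR : H m ⊆ R m c := by
    unfold H R
    rw [hV]
    exact convexHull_mono subset_union_left
  constructor
  · intro hxR
    have hxR' := hxR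
    unfold R at hxR'
    have hAne : (ch m '' {k | k ≤ m}).Nonempty := ⟨ch m 0, ⟨0, Nat.zero_le _, rfl⟩⟩
    have hBne : B.Nonempty := ⟨(-(1 - c), 1), Or.inl rfl⟩
    rw [hV, convexHull_union hAne hBne, mem_convexJoin] at hxR'
    obtain ⟨a, ha, b, hb, hseg⟩ := hxR'
    have haR : a ∈ R m c := hHR ha
    have hbR : b ∈ R m c := by
      unfold R
      rw [hV]
      exact convexHull_mono subset_union_right hb
    have has : 3 / 2 ≤ a.1 + a.2 := by
      have hcv : Convex ℝ {y : E | 3 / 2 ≤ y.1 + y.2} := by
        intro y hy z hz p q hp hq hpq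
        simp only [mem_setOf_eq, Prod.fst_add, Prod.snd_add, Prod.smul_fst, Prod.smul_snd,
          smul_eq_mul] at *
        nlinarith [mul_le_mul_of_nonneg_left hy hp, mul_le_mul_of_nonneg_left hz hq]
      refine (convexHull_min ?_ hcv) ha
      rintro _ ⟨k, hk, rfl⟩
      exact sum_ch m k hm hk
    have hbs : b.1 + b.2 ≤ 1 / 2 := by
      have hcv : Convex ℝ {y : E | y.1 + y.2 ≤ 1 / 2} := by
        intro y hy z hz p q hp hq hpq
        simp only [mem_setOf_eq, Prod.fst_add, Prod.snd_add, Prod.smul_fst, Prod.smul_snd,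
          smul_eq_mul] at *
        nlinarith [mul_le_mul_of_nonneg_left hy hp, mul_le_mul_of_nonneg_left hz hq]
      refine (convexHull_min ?_ hcv) hb
      intro y hy
      simp only [B, mem_insert_iff, mem_singleton_iff] at hy
      simp only [mem_setOf_eq]
      rcases hy with rfl | rfl | rfl | rfl | rfl | rfl <;> simp only <;> linarith
    rw [segment_eq_image] at hseg
    obtain ⟨t, ⟨ht0, ht1⟩, rfl⟩ := hseg
    simp only [Prod.fst_add, Prod.snd_add, Prod.smul_fst, Prod.smul_snd, smul_eq_mul] at hx
    set sa := a.1 + a.2 with hsa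
    set sb := b.1 + b.2 with hsb
    have hd : 0 < sa - sb := by linarith
    by_cases ht : t = 0
    · subst ht
      have ha' : a ∈ H m := ha
      simpa using ha'
    have htp : 0 < t := lt_of_le_of_ne ht0 (Ne.symm ht)
    have htle : t * (sa - sb) ≤ sa - 3 / 2 := by nlinarith
    have ht0' : 0 < sa - 3 / 2 := lt_of_lt_of_le (mul_pos htp hd) htle
    set u : ℝ := (sa - 3 / 2) / (sa - sb) with hu
    have hup : 0 < u := div_pos ht0' hd
    have hu1 : u ≤ 1 := by rw [hu, div_le_one hd]; linarith
    have hus : u * (sa - sb) = sa - 3 / 2 := by rw [hu]; field_simp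
    have htu : t ≤ u := by
      rw [hu, le_div_iff₀ hd]; exact htle
    let z : E := (1 - u) • a + u • b
    have hzR : z ∈ R m c := (convex_convexHull ℝ _) haR hbR (by linarith) hup.le (by ring)
    obtain ⟨hz1, hz2, -⟩ := hOuter m c hm hc0 hc1 z hzR
    have hzs : z.1 + z.2 = 3 / 2 := by
      simp only [z, Prod.fst_add, Prod.snd_add, Prod.smul_fst, Prod.smul_snd, smul_eq_mul]
      linear_combination (-1 : ℝ) * hus
    rw [abs_le] at hz1 hz2
    have hz : z ∈ H m := by
      have e0 : ch m 0 = (1 / 2, 1) := by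
        simp only [ch]; ext <;> simp <;> norm_num
      have e1 : ch m m = (1, 1 / 2) := by
        simp only [ch]
        rw [div_self hm'.ne']
        ext <;> simp <;> norm_num
      have h0 : ch m 0 ∈ H m := subset_convexHull ℝ _ ⟨0, Nat.zero_le _, rfl⟩
      have h1 : ch m m ∈ H m := subset_convexHull ℝ _ ⟨m, le_refl m, rfl⟩
      have := (convex_convexHull ℝ (ch m '' {k | k ≤ m})) h0 h1 (a := 2 - 2 * z.1)
        (b := 2 * z.1 - 1) (by linarith [hz1.2]) (by linarith [hz2.2]) (by ring)
      have hh : (2 - 2 * z.1) • ch m 0 + (2 * z.1 - 1) • ch m m = z := by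
        rw [e0, e1]
        ext
        · simp; ring
        · simp; linarith
      rw [hh] at this
      exact this
    have := (convex_convexHull ℝ (ch m '' {k | k ≤ m})) ha hz (a := 1 - t / u) (b := t / u)
      (by rw [sub_nonneg, div_le_one hup]; exact htu) (by positivity) (by ring)
    have hh : (1 - t / u) • a + (t / u) • z = (1 - t) • a + t • b := by
      simp only [z, smul_add, smul_smul]
      have h1 : t / u * u = t := by field_simp
      have h2 : t / u * (1 - u) = t / u - t := by rw [mul_sub, h1, mul_one]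
      rw [h1, h2, ← add_assoc, ← add_smul]
      congr 2
      ring
    rw [hh] at this
    exact this
  · intro hxH
    exact hHR hxH

end Pool.Agent.Q280.QG.TaskH
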