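import Pool.Agent.Q280.QG.Stmts

set_option autoImplicit false

namespace Pool.Agent.Q280.QG.TaskInf

open Set Real

theorem main : Pool.Agent.Q280.QG.TaskInf := by
  have hinf : ({θ : ℝ | 0 < θ ∧ θ < 1 / 4}).Infinite :=
    Set.Ioo_infinite (a := (0 : ℝ)) (b := 1 / 4) (by norm_num)
  refine Set.Infinite.image ?_ hinf
  rintro θ ⟨h1, h2⟩ θ' ⟨h3, h4⟩ h
  have hp := Real.pi_gt_three
  have hmem : ((cos θ, sin θ) : E) ∈ lineU 0 θ := by
    simp only [lineU, cv, Set.mem_ofPred_eq, sub_zero]
    ring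
  rcases Sym2.eq_iff.1 h with ⟨h5, -⟩ | ⟨h5, -⟩
  · rw [h5] at hmem
    simp only [lineU, cv, Set.mem_ofPred_eq, sub_zero] at hmem
    have h6 : sin (θ - θ') = 0 := by rw [sin_sub]; linarith
    rcases lt_trichotomy θ θ' with h7 | h7 | h7
    · exfalso
      have := sin_neg_of_neg_of_neg_pi_lt (x := θ - θ') (by linarith) (by linarith)
      linarith
    · exact h7
    · exfalso
      have := sin_pos_of_pos_of_lt_pi (x := θ - θ') (by linarith) (by linarith)
      linarith
  · exfalso
    rw [h5] at hmem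
    simp only [lineV, cu, Set.mem_ofPred_eq, sub_zero] at hmem
    have h6 : cos (θ - θ') = 0 := by rw [cos_sub]; linarith
    have := cos_pos_of_mem_Ioo (x := θ - θ') ⟨by linarith, by linarith⟩
    linarith

end Pool.Agent.Q280.QG.TaskInf
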