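import Pool.Agent.Q280.QG.Stmts

/-! QG.TaskInner (author: helper119). -/

set_option autoImplicit false

namespace Pool.Agent.Q280.QG.TaskInner

open MeasureTheory Set Real Pool.Agent.Q280.QG

theorem seg {S : Set E} (hS : Convex ℝ S) {P Q : E} (hP : P ∈ S) (hQ : Q ∈ S) {y a : ℝ}
    (h : P.2 < Q.2) (h1 : P.2 ≤ y) (h2 : y ≤ Q.2)
    (ha : (a - P.1) * (Q.2 - P.2) = (y - P.2) * (Q.1 - P.1)) : ((a, y) : E) ∈ S := by
  have hd : 0 < Q.2 - P.2 := by linarith
  have ht0 : 0 ≤ (y - P.2) / (Q.2 - P.2) := div_nonneg (by linarith) hd.le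
  have ht1 : (y - P.2) / (Q.2 - P.2) ≤ 1 := (div_le_one hd).2 (by linarith)
  have e : ((a, y) : E) = (1 - (y - P.2) / (Q.2 - P.2)) • P + ((y - P.2) / (Q.2 - P.2)) • Q := by
    refine Prod.ext ?_ ?_
    · simp only [Prod.fst_add, Prod.smul_fst, smul_eq_mul]
      have : a - P.1 = (y - P.2) / (Q.2 - P.2) * (Q.1 - P.1) := by
        rw [div_mul_eq_mul_div, ← ha, mul_div_assoc, div_self hd.ne', mul_one]
      linarith
    · simp only [Prod.snd_add, Prod.smul_snd, smul_eq_mul]
      have : (y - P.2) / (Q.2 - P.2) * (Q.2 - P.2) = y - P.2 := div_mul_cancel₀ _ hd.ne'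
      linarith
  rw [e]
  exact hS hP hQ (by linarith) ht0 (by ring)

theorem hor {S : Set E} (hS : Convex ℝ S) {a b x y : ℝ} (hP : ((a, y) : E) ∈ S)
    (hQ : ((b, y) : E) ∈ S) (h1 : a ≤ x) (h2 : x ≤ b) : ((x, y) : E) ∈ S := by
  rcases eq_or_lt_of_le (h1.trans h2) with h | h
  · have : x = a := le_antisymm (h ▸ h2) h1
    rw [this]
    exact hP
  · have hd : 0 < b - a := by linarith
    have ht0 : 0 ≤ (x - a) / (b - a) := div_nonneg (by linarith) hd.le
    have ht1 : (x - a) / (b - a) ≤ 1 := (div_le_one hd).2 (by linarith)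
    have e : ((x, y) : E) = (1 - (x - a) / (b - a)) • ((a, y) : E) +
        ((x - a) / (b - a)) • ((b, y) : E) := by
      refine Prod.ext ?_ ?_
      · simp only [Prod.fst_add, Prod.smul_fst, smul_eq_mul]
        have : (x - a) / (b - a) * (b - a) = x - a := div_mul_cancel₀ _ hd.ne'
        linarith
      · simp only [Prod.snd_add, Prod.smul_snd, smul_eq_mul]
        ring
    rw [e]
    exact hS hP hQ (by linarith) ht0 (by ring)

theorem main : Pool.Agent.Q280.QG.TaskInner := by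
  intro m c hm hc0 hc1 x hx1 hx2 h1 h2 h3 h4
  have hS : Convex ℝ (R m c) := convex_convexHull ℝ _
  have hmem : ∀ v, v ∈ V m c → v ∈ R m c := fun v hv => subset_convexHull ℝ _ hv
  have hm0 : (m : ℝ) ≠ 0 := by
    have : (0 : ℝ) < m := by exact_mod_cast hm
    exact this.ne'
  have v0 : ((1 / 2, 1) : E) ∈ R m c := by
    refine hmem _ ?_
    unfold V
    rw [Finset.mem_union, Finset.mem_image]
    refine Or.inl ⟨0, by simp, ?_⟩
    unfold ch
    refine Prod.ext ?_ ?_ <;> norm_num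
  have v1 : ((1, 1 / 2) : E) ∈ R m c := by
    refine hmem _ ?_
    unfold V
    rw [Finset.mem_union, Finset.mem_image]
    refine Or.inl ⟨m, by simp, ?_⟩
    unfold ch
    rw [div_self hm0]
    refine Prod.ext ?_ ?_ <;> norm_num
  have vA : ((-(1 - c), 1) : E) ∈ R m c := hmem _ (by unfold V; simp)
  have vB : ((-1, 1 - c) : E) ∈ R m c := hmem _ (by unfold V; simp)
  have vC : ((-1, -(1 - c)) : E) ∈ R m c := hmem _ (by unfold V; simp)
  have vD : ((-(1 - c), -1) : E) ∈ R m c := hmem _ (by unfold V; simp)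
  have vE : ((1 - c, -1) : E) ∈ R m c := hmem _ (by unfold V; simp)
  have vF : ((1, -(1 - c)) : E) ∈ R m c := hmem _ (by unfold V; simp)
  obtain ⟨x1, x2⟩ := x
  simp only at hx1 hx2 h1 h2 h3 h4
  rw [abs_le] at hx1 hx2
  obtain ⟨l, hl, hl'⟩ : ∃ l, ((l, x2) : E) ∈ R m c ∧ l ≤ x1 := by
    rcases le_total x2 (1 - c) with h | h
    · rcases le_total (-(1 - c)) x2 with h' | h'
      · exact ⟨-1, seg hS vC vB (by simp only; linarith) h' h (by simp only; ring), hx1.1⟩
      · exact ⟨-(2 - c) - x2, seg hS vD vC (by simp only; linarith) hx2.1 h'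
          (by simp only; ring), by linarith⟩
    · exact ⟨x2 - (2 - c), seg hS vB vA (by simp only; linarith) h hx2.2 (by simp only; ring),
        by linarith⟩
  obtain ⟨r, hr, hr'⟩ : ∃ r, ((r, x2) : E) ∈ R m c ∧ x1 ≤ r := by
    rcases le_total x2 (1 / 2) with h | h
    · rcases le_total (-(1 - c)) x2 with h' | h'
      · exact ⟨1, seg hS vF v1 (by simp only; linarith) h' h (by simp only; ring), hx1.2⟩
      · exact ⟨2 - c + x2, seg hS vE vF (by simp only; linarith) hx2.1 h' (by simp only; ring),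
          by linarith⟩
    · exact ⟨3 / 2 - x2, seg hS v1 v0 (by simp only; norm_num) h hx2.2 (by simp only; ring),
        by linarith⟩
  exact hor hS hl hr hl' hr'

end Pool.Agent.Q280.QG.TaskInner
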