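import Pool.Agent.Q280.QG.Stmts

namespace Pool.Agent.Q280.QG.TaskInt

open Pool.Agent.Q280.QG

theorem main (h : TaskInner) : Pool.Agent.Q280.QG.TaskInt := by
  intro _ m c hm hc hc2
  rw [mem_interior]
  refine ⟨Metric.ball 0 (1 / 4), ?_, Metric.isOpen_ball, Metric.mem_ball_self (by norm_num)⟩
  intro x hx
  rw [mem_ball_zero_iff] at hx
  have h1 : |x.1| < 1 / 4 := lt_of_le_of_lt (norm_fst_le x) hx
  have h2 : |x.2| < 1 / 4 := lt_of_le_of_lt (norm_snd_le x) hx
  rw [abs_lt] at h1 h2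
  refine h m c hm hc hc2 x ?_ ?_ ?_ ?_ ?_ ?_
  · rw [abs_le]; constructor <;> linarith
  · rw [abs_le]; constructor <;> linarith
  all_goals linarith

end Pool.Agent.Q280.QG.TaskInt
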