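import Pool.Agent.Q280.QG.Stmts

set_option autoImplicit false

namespace Pool.Agent.Q280.QG.TaskMeas

open MeasureTheory Set Real
open Pool.Agent.Q280.QG

theorem main : Pool.Agent.Q280.QG.TaskMeas := by
  intro m c
  have hT : ∀ ε δ c : ℝ, MeasurableSet (Tri ε δ c) := by
    intro ε δ c
    have h1 : MeasurableSet {x : E | ε * x.1 ≤ 1} :=
      (isClosed_le (by fun_prop) (by fun_prop)).measurableSet
    have h2 : MeasurableSet {x : E | δ * x.2 ≤ 1} :=
      (isClosed_le (by fun_prop) (by fun_prop)).measurableSet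
    have h3 : MeasurableSet {x : E | 2 - c < ε * x.1 + δ * x.2} :=
      (isOpen_lt (by fun_prop) (by fun_prop)).measurableSet
    exact h1.inter (h2.inter h3)
  have hH : MeasurableSet (H m) := by
    have h1 : (ch m '' {k | k ≤ m}).Finite := (Set.finite_le_nat m).image _
    exact (Set.Finite.isCompact_convexHull (𝕜 := ℝ) h1).isClosed.measurableSet
  refine ⟨?_, ?_, fun ε δ => hT ε δ c⟩
  · have h1 : ((V m c : Set E)).Finite := (V m c).finite_toSet
    exact (Set.Finite.isCompact_convexHull (𝕜 := ℝ) h1).isClosed.measurableSet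
  · exact (hT 1 1 (1 / 2)).diff hH

end Pool.Agent.Q280.QG.TaskMeas
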