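import Pool.Agent.Q280.QG.Stmts

set_option autoImplicit false

namespace Pool.Agent.Q280.QG.TaskOuter

open MeasureTheory Set Real Pool.Agent.Q280.QG

theorem hull_half (W : Set E) (p q d : ℝ) (h : ∀ w ∈ W, p * w.1 + q * w.2 ≤ d) :
    ∀ x ∈ convexHull ℝ W, p * x.1 + q * x.2 ≤ d := by
  have hc : Convex ℝ {x : E | p * x.1 + q * x.2 ≤ d} := by
    intro x hx y hy a b ha hb hab
    simp only [Set.mem_setOf_eq, Prod.fst_add, Prod.snd_add, Prod.smul_fst, Prod.smul_snd,
      smul_eq_mul] at hx hy ⊢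
    calc p * (a * x.1 + b * y.1) + q * (a * x.2 + b * y.2)
        = a * (p * x.1 + q * x.2) + b * (p * y.1 + q * y.2) := by ring
      _ ≤ a * d + b * d := by gcongr
      _ = d := by rw [← add_mul, hab, one_mul]
  exact fun x hx => convexHull_min h hc hx

theorem ch_bd (m k : ℕ) (hm : 1 ≤ m) (hk : k ≤ m) :
    1 / 2 ≤ (ch m k).1 ∧ (ch m k).1 ≤ 1 ∧ 1 / 2 ≤ (ch m k).2 ∧ (ch m k).2 ≤ 1 := by
  have hm0 : (0 : ℝ) < m := by exact_mod_cast hm
  have hs0 : (0 : ℝ) ≤ (k : ℝ) / m := by positivity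
  have hs1 : (k : ℝ) / m ≤ 1 := by
    rw [div_le_one hm0]
    exact_mod_cast hk
  unfold ch
  generalize (k : ℝ) / m = s at *
  dsimp only
  refine ⟨?_, ?_, ?_, ?_⟩ <;> nlinarith

theorem main : Pool.Agent.Q280.QG.TaskOuter := by
  intro m c hm hc hc2 x hx
  have hV : ∀ v ∈ (V m c : Set E), (1 / 2 ≤ v.1 ∧ v.1 ≤ 1 ∧ 1 / 2 ≤ v.2 ∧ v.2 ≤ 1) ∨
      v = (-(1 - c), 1) ∨ v = (-1, 1 - c) ∨ v = (-1, -(1 - c)) ∨ v = (-(1 - c), -1) ∨
      v = (1 - c, -1) ∨ v = (1, -(1 - c)) := by
    intro v hv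
    have hv' : v ∈ V m c := Finset.mem_coe.1 hv
    unfold V at hv'
    rcases Finset.mem_union.1 hv' with h | h
    · left
      obtain ⟨k, hk, rfl⟩ := Finset.mem_image.1 h
      exact ch_bd m k hm (by have := Finset.mem_range.1 hk; omega)
    · right
      simpa only [Finset.mem_insert, Finset.mem_singleton] using h
  have key : ∀ p q d : ℝ, (∀ w ∈ (V m c : Set E), p * w.1 + q * w.2 ≤ d) →
      p * x.1 + q * x.2 ≤ d := fun p q d h => hull_half _ p q d h x hx
  have h1 := key 1 0 1 (by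
    intro w hw
    rcases hV w hw with h | h | h | h | h | h | h
    · linarith [h.2.1]
    all_goals (rw [h]; dsimp only; linarith))
  have h2 := key (-1) 0 1 (by
    intro w hw
    rcases hV w hw with h | h | h | h | h | h | h
    · linarith [h.1]
    all_goals (rw [h]; dsimp only; linarith))
  have h3 := key 0 1 1 (by
    intro w hw
    rcases hV w hw with h | h | h | h | h | h | h
    · linarith [h.2.2.2]
    all_goals (rw [h]; dsimp only; linarith))
  have h4 := key 0 (-1) 1 (by
    intro w hw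
    rcases hV w hw with h | h | h | h | h | h | h
    · linarith [h.2.2.1]
    all_goals (rw [h]; dsimp only; linarith))
  have h5 := key (-1) 1 (2 - c) (by
    intro w hw
    rcases hV w hw with h | h | h | h | h | h | h
    · linarith [h.1, h.2.2.2]
    all_goals (rw [h]; dsimp only; linarith))
  have h6 := key (-1) (-1) (2 - c) (by
    intro w hw
    rcases hV w hw with h | h | h | h | h | h | h
    · linarith [h.1, h.2.2.1]
    all_goals (rw [h]; dsimp only; linarith))
  have h7 := key 1 (-1) (2 - c) (by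
    intro w hw
    rcases hV w hw with h | h | h | h | h | h | h
    · linarith [h.2.1, h.2.2.1]
    all_goals (rw [h]; dsimp only; linarith))
  refine ⟨abs_le.2 ⟨by linarith, by linarith⟩, abs_le.2 ⟨by linarith, by linarith⟩, by linarith,
    by linarith, by linarith⟩

end Pool.Agent.Q280.QG.TaskOuter
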