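import Pool.Agent.Q280.QG.Stmts

/-! MP_79dd7e_co: task `TaskPos` of the blueprint in `Pool/Agent/Q280/QG/Stmts.lean`. -/

set_option autoImplicit false

namespace Pool.Agent.Q280.QG.TaskPos

open MeasureTheory Set Real
open Pool.Agent.Q280.QG

private theorem key (m : ℕ) (c : ℝ) (P : E → Prop) (h0 : ∀ j : ℕ, j ≤ m → P (ch m j))
    (h1 : P (-(1 - c), 1)) (h2 : P (-1, 1 - c)) (h3 : P (-1, -(1 - c))) (h4 : P (-(1 - c), -1))
    (h5 : P (1 - c, -1)) (h6 : P (1, -(1 - c))) : ∀ w ∈ V m c, P w := by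
  intro w hw
  unfold V at hw
  rw [Finset.mem_union, Finset.mem_image] at hw
  rcases hw with ⟨j, hj, rfl⟩ | hw
  · exact h0 j (by have := Finset.mem_range.1 hj; omega)
  · simp only [Finset.mem_insert, Finset.mem_singleton] at hw
    rcases hw with rfl | rfl | rfl | rfl | rfl | rfl <;> assumption

private theorem choose_s (m k : ℕ) (hm : 1 ≤ m) (hk : k ≤ m) : ∃ s : ℝ, 0 < s ∧ s < 1 ∧
    ((k : ℝ) / m - s) ^ 2 ≤ s ^ 2 ∧ ((k : ℝ) / m - s) ^ 2 ≤ (1 - s) ^ 2 ∧
    ∀ j ≤ m, j ≠ k → ((k : ℝ) / m - s) ^ 2 < ((j : ℝ) / m - s) ^ 2 := by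
  have hm1 : (1 : ℝ) ≤ m := by exact_mod_cast hm
  have hm0 : (0 : ℝ) < m := by linarith
  obtain ⟨r, hr⟩ : ∃ r : ℝ, r = 1 / (4 * m) := ⟨_, rfl⟩
  have hr0 : 0 < r := by rw [hr]; positivity
  have hr4 : 4 * r = 1 / m := by rw [hr]; field_simp
  have hr1 : 4 * r ≤ 1 := by
    rw [hr4, div_le_one hm0]
    exact hm1
  rcases Nat.eq_zero_or_pos k with h0 | hpos
  · subst h0
    refine ⟨r, hr0, by linarith, ?_, ?_, ?_⟩
    · simp
    · simp only [Nat.cast_zero, zero_div, zero_sub, neg_sq]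
      nlinarith
    · intro j _ hj
      have hj1 : (1 : ℝ) ≤ j := by exact_mod_cast Nat.one_le_iff_ne_zero.2 hj
      have hj2 : 4 * r ≤ (j : ℝ) / m := by
        rw [hr4]
        exact div_le_div_of_nonneg_right hj1 hm0.le
      simp only [Nat.cast_zero, zero_div, zero_sub, neg_sq]
      nlinarith
  · rcases hk.eq_or_lt with h1 | hlt
    · subst h1
      refine ⟨1 - r, by linarith, by linarith, ?_, ?_, ?_⟩
      · rw [div_self hm0.ne']
        nlinarith
      · rw [div_self hm0.ne']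
      · intro j hj hjk
        have hjl : j + 1 ≤ k := by omega
        have hj1 : (j : ℝ) + 1 ≤ k := by exact_mod_cast hjl
        have hj2 : (j : ℝ) / k + 4 * r ≤ 1 := by
          rw [hr4, ← add_div, div_le_one hm0]
          exact hj1
        rw [div_self hm0.ne']
        nlinarith
    · refine ⟨(k : ℝ) / m, ?_, ?_, ?_, ?_, ?_⟩
      · have : (0 : ℝ) < k := by exact_mod_cast hpos
        positivity
      · rw [div_lt_one hm0]
        exact_mod_cast hlt
      · rw [sub_self]
        rw [zero_pow two_ne_zero]; positivity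
      · rw [sub_self]
        rw [zero_pow two_ne_zero]; positivity
      · intro j _ hj
        rw [sub_self]
        have : (j : ℝ) / m - k / m ≠ 0 := by
          rw [← sub_div]
          have : (j : ℝ) - k ≠ 0 := by
            rw [sub_ne_zero]
            exact_mod_cast hj
          exact div_ne_zero this hm0.ne'
        rw [zero_pow two_ne_zero]; positivity

theorem main : Pool.Agent.Q280.QG.TaskPos := by
  intro hS m c hm hc hc2 v hv
  have hm1 : (1 : ℝ) ≤ m := by exact_mod_cast hm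
  have hm0 : (0 : ℝ) < m := by linarith
  have ht : ∀ j : ℕ, j ≤ m → 0 ≤ (j : ℝ) / m ∧ (j : ℝ) / m ≤ 1 := by
    intro j hj
    refine ⟨by positivity, ?_⟩
    rw [div_le_one hm0]
    exact_mod_cast hj
  refine key m c (fun v => v ∉ convexHull ℝ ((V m c : Set E) \ {v})) ?_ ?_ ?_ ?_ ?_ ?_ ?_ v hv
  · intro k hk
    obtain ⟨s, hs0, hs1, hd1, hd2, hj⟩ := choose_s m k hm hk
    refine hS _ _ (-s) (-(1 - s)) ?_
    refine key m c (fun w => w ≠ ch m k → -s * (ch m k).1 + -(1 - s) * (ch m k).2 <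
      -s * w.1 + -(1 - s) * w.2) ?_ ?_ ?_ ?_ ?_ ?_ ?_
    · intro j hjm hne
      have hjk : j ≠ k := by
        rintro rfl
        exact hne rfl
      have h := hj j hjm hjk
      simp only [ch]
      nlinarith
    all_goals
      intro _
      simp only [ch]
      nlinarith [mul_pos hs0 hc, mul_pos (sub_pos.2 hs1) hc, mul_pos hs0 (sub_pos.2 hs1)]
  · refine hS _ _ (c / 4) (-1) ?_
    refine key m c (fun w => w ≠ (-(1 - c), 1) → _) ?_ ?_ ?_ ?_ ?_ ?_ ?_
    · intro j hjm _
      obtain ⟨h1, h2⟩ := ht j hjm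
      simp only [ch]
      nlinarith [mul_nonneg hc.le h1, mul_nonneg hc.le (sub_nonneg.2 h2),
        mul_nonneg (mul_nonneg hc.le h1) (sub_nonneg.2 h2), mul_pos hc hc]
    · intro h
      exact absurd rfl h
    all_goals
      intro _
      simp only
      nlinarith [mul_pos hc hc]
  · refine hS _ _ 1 (-(c / 4)) ?_
    refine key m c (fun w => w ≠ (-1, 1 - c) → _) ?_ ?_ ?_ ?_ ?_ ?_ ?_
    · intro j hjm _
      obtain ⟨h1, h2⟩ := ht j hjm
      simp only [ch]
      nlinarith [mul_nonneg hc.le h1, mul_nonneg hc.le (sub_nonneg.2 h2),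
        mul_nonneg h1 (sub_nonneg.2 h2), mul_nonneg hc.le (sq_nonneg ((j : ℝ) / m)),
        mul_nonneg (mul_nonneg hc.le h1) (sub_nonneg.2 h2), mul_pos hc hc]
    all_goals
      intro h
      first
        | exact absurd rfl h
        | (simp only; nlinarith [mul_pos hc hc])
  · refine hS _ _ 1 (c / 4) ?_
    refine key m c (fun w => w ≠ (-1, -(1 - c)) → _) ?_ ?_ ?_ ?_ ?_ ?_ ?_
    · intro j hjm _
      obtain ⟨h1, h2⟩ := ht j hjm
      simp only [ch]
      nlinarith [mul_nonneg hc.le h1, mul_nonneg hc.le (sub_nonneg.2 h2),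
        mul_nonneg h1 (sub_nonneg.2 h2), mul_nonneg hc.le (sq_nonneg ((j : ℝ) / m)),
        mul_nonneg (mul_nonneg hc.le h1) (sub_nonneg.2 h2), mul_pos hc hc]
    all_goals
      intro h
      first
        | exact absurd rfl h
        | (simp only; nlinarith [mul_pos hc hc])
  · refine hS _ _ (c / 4) 1 ?_
    refine key m c (fun w => w ≠ (-(1 - c), -1) → _) ?_ ?_ ?_ ?_ ?_ ?_ ?_
    · intro j hjm _
      obtain ⟨h1, h2⟩ := ht j hjm
      simp only [ch]
      nlinarith [mul_nonneg hc.le h1, mul_nonneg hc.le (sub_nonneg.2 h2),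
        mul_nonneg h1 (sub_nonneg.2 h2), mul_nonneg hc.le (sq_nonneg ((j : ℝ) / m)),
        mul_nonneg (mul_nonneg hc.le h1) (sub_nonneg.2 h2), mul_pos hc hc]
    all_goals
      intro h
      first
        | exact absurd rfl h
        | (simp only; nlinarith [mul_pos hc hc])
  · refine hS _ _ (-(c / 4)) 1 ?_
    refine key m c (fun w => w ≠ (1 - c, -1) → _) ?_ ?_ ?_ ?_ ?_ ?_ ?_
    · intro j hjm _
      obtain ⟨h1, h2⟩ := ht j hjm
      simp only [ch]
      nlinarith [mul_nonneg hc.le h1, mul_nonneg hc.le (sub_nonneg.2 h2),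
        mul_nonneg h1 (sub_nonneg.2 h2), mul_nonneg hc.le (sq_nonneg (1 - (j : ℝ) / m)),
        mul_nonneg (mul_nonneg hc.le h1) (sub_nonneg.2 h2), mul_pos hc hc]
    all_goals
      intro h
      first
        | exact absurd rfl h
        | (simp only; nlinarith [mul_pos hc hc])
  · refine hS _ _ (-1) (c / 4) ?_
    refine key m c (fun w => w ≠ (1, -(1 - c)) → _) ?_ ?_ ?_ ?_ ?_ ?_ ?_
    · intro j hjm _
      obtain ⟨h1, h2⟩ := ht j hjm
      simp only [ch]
      nlinarith [mul_nonneg hc.le h1, mul_nonneg hc.le (sub_nonneg.2 h2),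
        mul_nonneg h1 (sub_nonneg.2 h2), mul_nonneg hc.le (sq_nonneg (1 - (j : ℝ) / m)),
        sq_nonneg (1 - (j : ℝ) / m),
        mul_nonneg (mul_nonneg hc.le h1) (sub_nonneg.2 h2), mul_pos hc hc]
    all_goals
      intro h
      first
        | exact absurd rfl h
        | (simp only; nlinarith [mul_pos hc hc])

end Pool.Agent.Q280.QG.TaskPos
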