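import Pool.Agent.Q280.QG.Stmts

set_option autoImplicit false

namespace Pool.Agent.Q280.QG.TaskQuad1

open MeasureTheory Set Real Pool.Agent.Q280.QG

theorem mem_quad1 {θ : ℝ} (x : E) :
    x ∈ quad 0 θ 1 1 ↔ 0 ≤ x.1 * cos θ + x.2 * sin θ ∧ 0 ≤ -(x.1 * sin θ) + x.2 * cos θ := by
  simp [quad, cu, cv]

theorem main : Pool.Agent.Q280.QG.TaskQuad1 := by
  intro hOut hIn hH m c hm hc0 hc θ h0 h1
  have hs0 : 0 < sin θ := Real.sin_pos_of_pos_of_lt_pi h0 (by linarith [Real.pi_gt_three])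
  have hs1 : sin θ < 1 / 4 := (Real.sin_lt h0).trans h1
  have hc1 : 3 / 4 < cos θ := by
    have := Real.one_sub_sq_div_two_le_cos (x := θ)
    nlinarith
  have hc2 : cos θ ≤ 1 := Real.cos_le_one θ
  have key : ∀ x : E, x ∈ Tri 1 1 (1 / 2) → x ∈ Sq ∩ quad 0 θ 1 1 := by
    rintro ⟨a, b⟩ ⟨ha, hb, hab⟩
    simp only [one_mul] at ha hb hab
    have ha' : 1 / 2 < a := by linarith
    have hb' : 1 / 2 < b := by linarith
    refine ⟨⟨abs_le.mpr ⟨by simp only; linarith, ha⟩, abs_le.mpr ⟨by simp only; linarith, hb⟩⟩, ?_⟩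
    rw [mem_quad1]
    constructor
    · simp only
      have h2 : 0 < a * cos θ := by nlinarith
      have h3 : 0 < b * sin θ := by nlinarith
      linarith
    · simp only
      have h2 : a * sin θ ≤ 1 * sin θ := mul_le_mul_of_nonneg_right ha hs0.le
      have h3 : 1 / 2 * cos θ ≤ b * cos θ := mul_le_mul_of_nonneg_right hb'.le (by linarith)
      linarith
  refine ⟨?_, fun x hx => key x hx.1⟩
  ext x
  constructor
  · rintro ⟨hR, hq⟩
    have h2 := hOut m c hm hc0 hc x hR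
    refine ⟨⟨⟨h2.1, h2.2.1⟩, hq⟩, ?_⟩
    rintro ⟨⟨_, _, h3⟩, h4⟩
    exact h4 ((hH hOut m c hm hc0 hc x (by linarith)).mp hR)
  · rintro ⟨⟨hS, hq⟩, hN⟩
    refine ⟨?_, hq⟩
    by_cases h2 : x.1 + x.2 ≤ 3 / 2
    · rw [mem_quad1] at hq
      obtain ⟨hq1, hq2⟩ := hq
      have hx1 := abs_le.mp hS.1
      have hx2 := abs_le.mp hS.2
      have hA : -(1 / 3) ≤ x.1 := by
        by_contra hcon
        push Not at hcon
        have h3 : x.1 * cos θ < -(1 / 4) := by nlinarith
        have h4 : x.2 * sin θ ≤ 1 / 4 := by nlinarith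
        linarith
      have hB : -(1 / 3) ≤ x.2 := by
        by_contra hcon
        push Not at hcon
        have h3 : x.2 * cos θ < -(1 / 4) := by nlinarith
        have h4 : -(1 / 4) ≤ x.1 * sin θ := by nlinarith
        linarith
      exact hIn m c hm hc0 hc x hS.1 hS.2 h2 (by linarith) (by linarith) (by linarith)
    · push Not at h2
      rw [hH hOut m c hm hc0 hc x h2.le]
      by_contra h3
      apply hN
      refine ⟨⟨?_, ?_, ?_⟩, h3⟩
      · linarith [(abs_le.mp hS.1).2]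
      · linarith [(abs_le.mp hS.2).2]
      · linarith

end Pool.Agent.Q280.QG.TaskQuad1
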