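import Mathlib
import Pool.Agent.Q280.QG.Stmts

set_option autoImplicit false

namespace Pool.Agent.Q280.QG.TaskQuad3

open MeasureTheory Set Real

theorem third {s k : ℝ} (hs0 : 0 < s) (hs : s < 1 / 4) (hk : 3 / 4 < k) (a b : ℝ) (hb : -b ≤ 1)
    (h : a * k + b * s ≤ 0) : a ≤ 1 / 3 := by
  by_contra hcon
  push Not at hcon
  have h1 : 1 / 3 * (3 / 4) < a * k := by nlinarith
  have h2 : -b * s ≤ 1 * s := mul_le_mul_of_nonneg_right hb hs0.le
  nlinarith

theorem pos {s k : ℝ} (hs0 : 0 < s) (hs : s < 1 / 4) (hk : 3 / 4 < k) (a b : ℝ) (ha : 1 / 2 ≤ a)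
    (hb : -b ≤ 1) : 0 ≤ a * k + b * s := by
  have h1 : 1 / 2 * (3 / 4) ≤ a * k := by nlinarith
  have h2 : -b * s ≤ 1 * s := mul_le_mul_of_nonneg_right hb hs0.le
  nlinarith

theorem main : Pool.Agent.Q280.QG.TaskQuad3 := by
  intro hOuter hInner m c hm hc0 hc1 θ hθ0 hθ1 ε hε δ hδ hne
  have hs0 : 0 < sin θ := sin_pos_of_pos_of_lt_pi hθ0 (by linarith [pi_gt_three])
  have hs : sin θ < 1 / 4 := (sin_lt hθ0).trans hθ1
  have hk : 3 / 4 < cos θ := by
    have := one_sub_sq_div_two_le_cos (x := θ)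
    nlinarith
  have hsub : Tri ε δ c ⊆ Sq ∩ quad 0 θ ε δ := by
    rintro x ⟨h1, h2, h3⟩
    simp only [mem_insert_iff, mem_singleton_iff] at hε hδ
    simp only [Sq, quad, cu, cv, mem_inter_iff, mem_setOf_eq, sub_zero, abs_le]
    rcases hε with rfl | rfl <;> rcases hδ with rfl | rfl
    · exact absurd ⟨rfl, rfl⟩ hne
    · refine ⟨⟨⟨by linarith, by linarith⟩, by linarith, by linarith⟩, ?_, ?_⟩
      · have := pos hs0 hs hk x.1 x.2 (by linarith) (by linarith)
        linarith
      · have := pos hs0 hs hk (-x.2) x.1 (by linarith) (by linarith)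
        linarith
    · refine ⟨⟨⟨by linarith, by linarith⟩, by linarith, by linarith⟩, ?_, ?_⟩
      · have := pos hs0 hs hk (-x.1) (-x.2) (by linarith) (by linarith)
        linarith
      · have := pos hs0 hs hk x.2 (-x.1) (by linarith) (by linarith)
        linarith
    · refine ⟨⟨⟨by linarith, by linarith⟩, by linarith, by linarith⟩, ?_, ?_⟩
      · have := pos hs0 hs hk (-x.1) (-x.2) (by linarith) (by linarith)
        linarith
      · have := pos hs0 hs hk (-x.2) x.1 (by linarith) (by linarith)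
        linarith
  refine ⟨?_, hsub⟩
  ext x
  constructor
  · rintro ⟨hx, hq⟩
    obtain ⟨o1, o2, o3, o4, o5⟩ := hOuter m c hm hc0 hc1 x hx
    refine ⟨⟨⟨o1, o2⟩, hq⟩, ?_⟩
    rintro ⟨-, -, h3⟩
    simp only [mem_insert_iff, mem_singleton_iff] at hε hδ
    rcases hε with rfl | rfl <;> rcases hδ with rfl | rfl
    · exact hne ⟨rfl, rfl⟩
    · linarith
    · linarith
    · linarith
  · rintro ⟨⟨⟨q1, q2⟩, hq⟩, hT⟩
    refine ⟨?_, hq⟩
    have a1 := abs_le.1 q1
    have a2 := abs_le.1 q2
    simp only [quad, cu, cv, mem_setOf_eq, sub_zero] at hq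
    obtain ⟨g1, g2⟩ := hq
    simp only [Tri, mem_setOf_eq, not_and, not_lt] at hT
    simp only [mem_insert_iff, mem_singleton_iff] at hε hδ
    rcases hε with rfl | rfl <;> rcases hδ with rfl | rfl
    · exact absurd ⟨rfl, rfl⟩ hne
    · -- (1,-1)
      have e1 := hT (by linarith [a1.2]) (by linarith [a2.1])
      have e2 := third hs0 hs hk (-x.1) (-x.2) (by linarith [a2.2]) (by linarith)
      have e3 := third hs0 hs hk x.2 (-x.1) (by linarith [a1.2]) (by linarith)
      exact hInner m c hm hc0 hc1 x q1 q2 (by linarith [a1.2]) (by linarith) (by linarith [a2.1])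
        (by linarith)
    · -- (-1,1)
      have e1 := hT (by linarith [a1.1]) (by linarith [a2.2])
      have e2 := third hs0 hs hk x.1 x.2 (by linarith [a2.1]) (by linarith)
      have e3 := third hs0 hs hk (-x.2) x.1 (by linarith [a1.1]) (by linarith)
      exact hInner m c hm hc0 hc1 x q1 q2 (by linarith [a2.2]) (by linarith) (by linarith [a1.1])
        (by linarith)
    · -- (-1,-1)
      have e1 := hT (by linarith [a1.1]) (by linarith [a2.1])
      have e2 := third hs0 hs hk x.1 x.2 (by linarith [a2.1]) (by linarith)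
      have e3 := third hs0 hs hk x.2 (-x.1) (by linarith [a1.2]) (by linarith)
      exact hInner m c hm hc0 hc1 x q1 q2 (by linarith) (by linarith [a1.1]) (by linarith)
        (by linarith [a2.1])

end Pool.Agent.Q280.QG.TaskQuad3
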