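import Pool.Agent.Q280.QG.Stmts

set_option autoImplicit false

namespace Pool.Agent.Q280.QG.TaskRot

open MeasureTheory Set Real Pool.Agent.Q280.QG

private theorem meas (θ ε δ : ℝ) : MeasurableSet (Sq ∩ quad 0 θ ε δ) := by
  apply IsClosed.measurableSet
  apply IsClosed.inter
  · have h1 : IsClosed {x : E | |x.1| ≤ 1} := isClosed_le (by fun_prop) continuous_const
    have h2 : IsClosed {x : E | |x.2| ≤ 1} := isClosed_le (by fun_prop) continuous_const
    exact h1.inter h2
  · have h1 : IsClosed {x : E | 0 ≤ ε * cu θ (x - 0)} :=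
      isClosed_le continuous_const (by unfold cu; fun_prop)
    have h2 : IsClosed {x : E | 0 ≤ δ * cv θ (x - 0)} :=
      isClosed_le continuous_const (by unfold cv; fun_prop)
    exact h1.inter h2

private def r (x : E) : E := (-x.2, x.1)

private theorem r_mp : MeasurePreserving r (volume : Measure E) (volume : Measure E) := by
  have h1 : MeasurePreserving (Prod.swap : ℝ × ℝ → ℝ × ℝ)
      ((volume : Measure ℝ).prod (volume : Measure ℝ)) ((volume : Measure ℝ).prod (volume : Measure ℝ)) :=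
    Measure.measurePreserving_swap
  have h2 : MeasurePreserving (Prod.map (Neg.neg : ℝ → ℝ) (id : ℝ → ℝ))
      ((volume : Measure ℝ).prod (volume : Measure ℝ)) ((volume : Measure ℝ).prod (volume : Measure ℝ)) :=
    (Measure.measurePreserving_neg (volume : Measure ℝ)).prod (MeasurePreserving.id _)
  exact h2.comp h1

private theorem step (θ ε δ : ℝ) :
    volume (Sq ∩ quad 0 θ ε δ) = volume (Sq ∩ quad 0 θ δ (-ε)) := by
  have h := r_mp.measure_preimage (meas θ ε δ).nullMeasurableSet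
  rw [← h]
  congr 1
  ext x
  simp only [mem_preimage, mem_inter_iff, Sq, quad, mem_setOf_eq, r, sub_zero, cu, cv, abs_neg]
  constructor
  · rintro ⟨⟨h1, h2⟩, h3, h4⟩
    refine ⟨⟨h2, h1⟩, ?_, ?_⟩
    · linarith
    · linarith
  · rintro ⟨⟨h1, h2⟩, h3, h4⟩
    refine ⟨⟨h2, h1⟩, ?_, ?_⟩
    · linarith
    · linarith

theorem main : Pool.Agent.Q280.QG.TaskRot := by
  intro θ
  refine ⟨volume (Sq ∩ quad 0 θ 1 1), ?_, ?_⟩
  · have h1 : Sq ∩ quad 0 θ 1 1 ⊆ Icc ((-1 : ℝ), (-1 : ℝ)) ((1 : ℝ), (1 : ℝ)) := by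
      rintro x ⟨⟨h1, h2⟩, -⟩
      rw [abs_le] at h1 h2
      exact ⟨⟨h1.1, h2.1⟩, ⟨h1.2, h2.2⟩⟩
    exact ((measure_mono h1).trans_lt isCompact_Icc.measure_lt_top).ne
  · intro ε hε δ hδ
    have s1 := step θ 1 1
    have s2 := step θ 1 (-1)
    have s3 := step θ (-1) (-1)
    have s4 := step θ (-1) 1
    rw [neg_neg] at s3 s4
    simp only [mem_insert_iff, mem_singleton_iff] at hε hδ
    rcases hε with rfl | rfl <;> rcases hδ with rfl | rfl
    · rfl
    · exact s1.symm
    · exact s4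
    · rw [s3, s4]

end Pool.Agent.Q280.QG.TaskRot
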