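import Pool.Agent.Q280.QG.Stmts

set_option autoImplicit false

namespace Pool.Agent.Q280.QG.TaskStrict

open MeasureTheory Set Real

theorem main : TaskStrict := by
  intro W v a b h hv
  have hlin : IsLinearMap ℝ (fun x : E => a * x.1 + b * x.2) := by
    refine ⟨fun x y => ?_, fun c x => ?_⟩
    · simp only [Prod.fst_add, Prod.snd_add]; ring
    · simp only [Prod.smul_fst, Prod.smul_snd, smul_eq_mul]; ring
  have hconv : Convex ℝ {x : E | a * v.1 + b * v.2 < a * x.1 + b * x.2} :=
    convex_halfSpace_gt hlin _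
  have hsub : W \ {v} ⊆ {x : E | a * v.1 + b * v.2 < a * x.1 + b * x.2} := by
    intro w hw
    exact h w hw.1 (fun e => hw.2 e)
  have hmem : a * v.1 + b * v.2 < a * v.1 + b * v.2 := convexHull_min hsub hconv hv
  exact lt_irrefl _ hmem

end Pool.Agent.Q280.QG.TaskStrict
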