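import Pool.Agent.Q280.QG.Stmts

namespace Pool.Agent.Q280.QG.TaskSum

open Pool.Agent.Q280.QG MeasureTheory Set Real

private theorem half (f : E →ₗ[ℝ] ℝ) (hf : f ≠ 0) (A : Set E) :
    volume A = volume (A ∩ {x | 0 ≤ f x}) + volume (A ∩ {x | 0 ≤ -f x}) := by
  have hc : Continuous f := LinearMap.continuous_of_finiteDimensional f
  have hm : MeasurableSet {x : E | 0 ≤ f x} := (isClosed_le continuous_const hc).measurableSet
  have h0 : volume {x : E | f x = 0} = 0 := by
    have h1 : LinearMap.ker f ≠ ⊤ := by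
      intro h
      exact hf (LinearMap.ker_eq_top.mp h)
    exact Measure.addHaar_submodule volume (LinearMap.ker f) h1
  conv_lhs => rw [← measure_inter_add_diff A hm]
  congr 1
  apply le_antisymm
  · apply measure_mono
    rintro x ⟨h1, h2⟩
    refine ⟨h1, ?_⟩
    have h3 : ¬ (0 ≤ f x) := h2
    show 0 ≤ -f x
    linarith
  · calc volume (A ∩ {x | 0 ≤ -f x}) ≤ volume ((A \ {x | 0 ≤ f x}) ∪ {x | f x = 0}) := by
          apply measure_mono
          rintro x ⟨h1, h2⟩
          have h3 : 0 ≤ -f x := h2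
          by_cases h4 : f x = 0
          · exact Or.inr h4
          · refine Or.inl ⟨h1, ?_⟩
            intro h5
            have h6 : 0 ≤ f x := h5
            exact h4 (le_antisymm (by linarith) h6)
      _ ≤ volume (A \ {x | 0 ≤ f x}) + volume {x : E | f x = 0} := measure_union_le _ _
      _ = volume (A \ {x | 0 ≤ f x}) := by rw [h0, add_zero]

theorem main : Pool.Agent.Q280.QG.TaskSum := by
  intro S θ _
  have hsc := Real.sin_sq_add_cos_sq θ
  set fu : E →ₗ[ℝ] ℝ := (cos θ) • LinearMap.fst ℝ ℝ ℝ + (sin θ) • LinearMap.snd ℝ ℝ ℝ with hfu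
  set fv : E →ₗ[ℝ] ℝ := (-sin θ) • LinearMap.fst ℝ ℝ ℝ + (cos θ) • LinearMap.snd ℝ ℝ ℝ with hfv
  have eu : ∀ x : E, cu θ x = fu x := by
    intro x; simp only [cu, hfu, LinearMap.add_apply, LinearMap.smul_apply, LinearMap.fst_apply,
      LinearMap.snd_apply, smul_eq_mul]; ring
  have ev : ∀ x : E, cv θ x = fv x := by
    intro x; simp only [cv, hfv, LinearMap.add_apply, LinearMap.smul_apply, LinearMap.fst_apply,
      LinearMap.snd_apply, smul_eq_mul]; ring
  have nu : fu ≠ 0 := by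
    intro h
    have h1 : fu (cos θ, sin θ) = 0 := by rw [h]; rfl
    rw [← eu] at h1
    simp only [cu] at h1
    nlinarith
  have nv : fv ≠ 0 := by
    intro h
    have h1 : fv (-sin θ, cos θ) = 0 := by rw [h]; rfl
    rw [← ev] at h1
    simp only [cv] at h1
    nlinarith
  have q : ∀ ε δ : ℝ, quad 0 θ ε δ = {x | 0 ≤ ε * fu x} ∩ {x | 0 ≤ δ * fv x} := by
    intro ε δ
    ext x
    simp only [quad, sub_zero, eu, ev, Set.mem_inter_iff]
    rfl
  rw [half fu nu S, half fv nv (S ∩ {x | 0 ≤ fu x}), half fv nv (S ∩ {x | 0 ≤ -fu x})]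
  simp only [q, one_mul, neg_mul, Set.inter_assoc]
  ring

end Pool.Agent.Q280.QG.TaskSum
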