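import Pool.Agent.Q280.QG.Stmts

set_option autoImplicit false

namespace Pool.Agent.Q280.QG.TaskTri

open MeasureTheory Set Real

theorem meas (ε δ c : ℝ) : MeasurableSet (Tri ε δ c) := by
  have h1 : MeasurableSet {x : E | ε * x.1 ≤ 1} :=
    measurableSet_le (measurable_fst.const_mul ε) measurable_const
  have h2 : MeasurableSet {x : E | δ * x.2 ≤ 1} :=
    measurableSet_le (measurable_snd.const_mul δ) measurable_const
  have h3 : MeasurableSet {x : E | 2 - c < ε * x.1 + δ * x.2} :=
    measurableSet_lt measurable_const ((measurable_fst.const_mul ε).add (measurable_snd.const_mul δ))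
  exact h1.inter (h2.inter h3)

theorem mp (ε : ℝ) (h : ε = 1 ∨ ε = -1) :
    MeasurePreserving (fun x : ℝ => ε * x) volume volume := by
  rcases h with rfl | rfl
  · have h : (fun x : ℝ => (1 : ℝ) * x) = id := by
      funext x
      simp
    rw [h]
    exact MeasurePreserving.id _
  · have h := Measure.measurePreserving_neg (volume : Measure ℝ)
    simpa using h

theorem base (c : ℝ) (hc : 0 < c) : volume (Tri 1 1 c) = ENNReal.ofReal (c ^ 2 / 2) := by
  rw [Measure.volume_eq_prod, Measure.prod_apply (meas 1 1 c)]
  have h1 : (fun x : ℝ => (volume : Measure ℝ) (Prod.mk x ⁻¹' Tri 1 1 c)) =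
      (Ioc (1 - c) 1).indicator (fun x => ENNReal.ofReal (x - (1 - c))) := by
    funext x
    by_cases hx : x ≤ 1
    · have h2 : Prod.mk x ⁻¹' Tri 1 1 c = Ioc (2 - c - x) 1 := by
        ext y
        constructor
        · rintro ⟨_, h4, h5⟩
          simp only at h4 h5
          exact ⟨by linarith, by linarith⟩
        · rintro ⟨h4, h5⟩
          exact ⟨by simpa using hx, by simpa using h5, by simp only; linarith⟩
      rw [h2, Real.volume_Ioc]
      by_cases hx2 : 1 - c < x
      · rw [indicator_of_mem (show x ∈ Ioc (1 - c) 1 from ⟨hx2, hx⟩)]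
        congr 1
        ring
      · rw [indicator_of_notMem (fun h : x ∈ Ioc (1 - c) 1 => hx2 h.1)]
        exact ENNReal.ofReal_of_nonpos (by linarith)
    · have h2 : Prod.mk x ⁻¹' Tri 1 1 c = ∅ := by
        ext y
        constructor
        · rintro ⟨h3, _, _⟩
          exact absurd (by simpa using h3) hx
        · rintro h3
          exact absurd h3 (notMem_empty y)
      rw [h2, measure_empty, indicator_of_notMem (fun h : x ∈ Ioc (1 - c) 1 => hx h.2)]
  rw [h1, lintegral_indicator measurableSet_Ioc, ← ofReal_integral_eq_lintegral_ofReal]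
  · congr 1
    rw [← intervalIntegral.integral_of_le (by linarith), intervalIntegral.integral_sub
      (by simp) (by simp), integral_id, intervalIntegral.integral_const]
    simp only [smul_eq_mul]
    ring
  · exact (continuous_id.sub continuous_const).integrableOn_Icc.mono_set Ioc_subset_Icc_self
  · refine (ae_restrict_mem measurableSet_Ioc).mono fun x hx => ?_
    have := hx.1
    simp only [Pi.zero_apply]
    linarith

theorem main : Pool.Agent.Q280.QG.TaskTri := by
  intro ε δ c hε hδ hc _
  rw [← base c hc]
  have h : MeasurePreserving (Prod.map (fun x : ℝ => ε * x) (fun x : ℝ => δ * x))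
      (volume : Measure E) (volume : Measure E) := by
    rw [Measure.volume_eq_prod]
    exact (mp ε hε).prod (mp δ hδ)
  rw [← h.measure_preimage (meas 1 1 c).nullMeasurableSet]
  congr 1
  ext x
  simp [Tri]

end Pool.Agent.Q280.QG.TaskTri
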